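import Pool.Agent.Lib.MP_6c3d62_pr.Mg.G067

/-! Block (3): from an energy bound to differences of averages (bridges of the annealed kernel). -/

set_option autoImplicit false
set_option linter.unusedSectionVars false

open Finset

namespace Pool.Agent.Stirring.RS

variable {V : Type*} [Fintype V] [DecidableEq V]
variable (T : ℕ → Equiv.Perm V) (w : ℕ → V → Option V)

/-- `G` is constant on windows. -/
def Con (G : ℕ → V → ℝ) (n : ℕ) : Prop :=
  ∀ m, m < n → ∀ x y, w (m + 1) x = w (m + 1) y → w (m + 1) x ≠ none → G (m + 1) x = G (m + 1) y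

/-- Energy of `G`. -/
noncomputable def EJ (G : ℕ → V → ℝ) (n : ℕ) : ℝ := ∑ m ∈ range n, ∑ v, (jmp T G m v) ^ 2

/-- Square sum on the steps in `P` before time `n`. -/
noncomputable def sqS (P : ℕ → V → Prop) [∀ m v, Decidable (P m v)] (u : V → ℝ) (n : ℕ) : ℝ :=
  ∑ m ∈ range n, ∑ v, if P m v then (fwd T w u m v) ^ 2 else 0

lemma EJ_nonneg (G : ℕ → V → ℝ) (n : ℕ) : 0 ≤ EJ T G n :=
  Finset.sum_nonneg fun _ _ => Finset.sum_nonneg fun _ _ => sq_nonneg _

/-- Cauchy-Schwarz for a flow `μ ≤ C α`. -/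
lemma cs1 {G : ℕ → V → ℝ} {n : ℕ} (P : ℕ → V → Prop) [∀ m v, Decidable (P m v)]
    (hP : ∀ m, m < n → ∀ v, ¬ P m v → jmp T G m v = 0) (u : V → ℝ) (C : ℝ)
    (μ : ℕ → V → ℝ) (hμ0 : ∀ m v, 0 ≤ μ m v) (hμ : ∀ m, m < n → ∀ v, μ m v ≤ C * fwd T w u m v) :
    (∑ m ∈ range n, ∑ v, μ m v * jmp T G m v) ^ 2 ≤ C ^ 2 * sqS T w P u n * EJ T G n := by
  have h1 : ∑ m ∈ range n, ∑ v, μ m v * jmp T G m v =
      ∑ p ∈ range n ×ˢ (univ : Finset V),
        (if P p.1 p.2 then μ p.1 p.2 else 0) * jmp T G p.1 p.2 := by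
    rw [Finset.sum_product]
    refine Finset.sum_congr rfl fun m hm => Finset.sum_congr rfl fun v _ => ?_
    split_ifs with h
    · rfl
    · rw [hP m (Finset.mem_range.1 hm) v h]; ring
  rw [h1]
  refine (Finset.sum_mul_sq_le_sq_mul_sq _ _ _).trans ?_
  have h2 : ∑ p ∈ range n ×ˢ (univ : Finset V), (jmp T G p.1 p.2) ^ 2 = EJ T G n := by
    rw [Finset.sum_product]; rfl
  rw [h2]
  refine mul_le_mul_of_nonneg_right ?_ (EJ_nonneg T G n)
  rw [Finset.sum_product, sqS, Finset.mul_sum]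
  refine Finset.sum_le_sum fun m hm => ?_
  rw [Finset.mul_sum]
  refine Finset.sum_le_sum fun v _ => ?_
  split_ifs with h
  · rw [← mul_pow]
    exact pow_le_pow_left₀ (hμ0 m v) (hμ m (Finset.mem_range.1 hm) v) 2
  · simp

lemma cs2 {G : ℕ → V → ℝ} {n : ℕ} (u : V → ℝ) (hu : ∀ v, 0 ≤ u v) (hu1 : ∑ v, u v = 1) (C : ℝ)
    (hC : 0 ≤ C)
    (μ : ℕ → V → ℝ) (hμ0 : ∀ m v, 0 ≤ μ m v) (hμ : ∀ m, m < n → ∀ v, μ m v ≤ C * fwd T w u m v) :
    (∑ m ∈ range n, ∑ v, μ m v * jmp T G m v) ^ 2 ≤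
      C ^ 2 * n * ∑ m ∈ range n, ∑ v, fwd T w u m v * (jmp T G m v) ^ 2 := by
  have h1 : ∑ m ∈ range n, ∑ v, μ m v * jmp T G m v =
      ∑ p ∈ range n ×ˢ (univ : Finset V), μ p.1 p.2 * jmp T G p.1 p.2 := by
    rw [Finset.sum_product]
  have h3 : (∑ p ∈ range n ×ˢ (univ : Finset V), μ p.1 p.2 * jmp T G p.1 p.2) ^ 2 ≤
      (∑ p ∈ range n ×ˢ (univ : Finset V), μ p.1 p.2) *
      (∑ p ∈ range n ×ˢ (univ : Finset V), μ p.1 p.2 * (jmp T G p.1 p.2) ^ 2) := by
    have h := Finset.sum_mul_sq_le_sq_mul_sq (range n ×ˢ (univ : Finset V))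
      (fun p => Real.sqrt (μ p.1 p.2))
      (fun p => Real.sqrt (μ p.1 p.2) * jmp T G p.1 p.2)
    refine le_trans (le_of_eq ?_) (h.trans (le_of_eq ?_))
    · congr 1
      refine Finset.sum_congr rfl fun p _ => ?_
      rw [← mul_assoc, Real.mul_self_sqrt (hμ0 _ _)]
    · congr 1
      · refine Finset.sum_congr rfl fun p _ => ?_
        rw [Real.sq_sqrt (hμ0 _ _)]
      · refine Finset.sum_congr rfl fun p _ => ?_
        rw [mul_pow, Real.sq_sqrt (hμ0 _ _)]
  rw [h1]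
  refine h3.trans ?_
  have h4 : ∑ p ∈ range n ×ˢ (univ : Finset V), μ p.1 p.2 ≤ C * n := by
    rw [Finset.sum_product]
    have : ∀ m ∈ range n, ∑ v, μ m v ≤ C := by
      intro m hm
      calc ∑ v, μ m v ≤ ∑ v, C * fwd T w u m v :=
            Finset.sum_le_sum fun v _ => hμ m (Finset.mem_range.1 hm) v
        _ = C := by rw [← Finset.mul_sum, fwd_sum, hu1, mul_one]
    refine (Finset.sum_le_sum this).trans (le_of_eq ?_)
    rw [Finset.sum_const, card_range, nsmul_eq_mul, mul_comm]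
  have h5 : ∑ p ∈ range n ×ˢ (univ : Finset V), μ p.1 p.2 * (jmp T G p.1 p.2) ^ 2 ≤
      C * ∑ m ∈ range n, ∑ v, fwd T w u m v * (jmp T G m v) ^ 2 := by
    rw [Finset.sum_product, Finset.mul_sum]
    refine Finset.sum_le_sum fun m hm => ?_
    rw [Finset.mul_sum]
    refine Finset.sum_le_sum fun v _ => ?_
    rw [← mul_assoc]
    exact mul_le_mul_of_nonneg_right (hμ m (Finset.mem_range.1 hm) v) (sq_nonneg _)
  have h6 : 0 ≤ ∑ p ∈ range n ×ˢ (univ : Finset V), μ p.1 p.2 * (jmp T G p.1 p.2) ^ 2 :=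
    Finset.sum_nonneg fun p _ => mul_nonneg (hμ0 _ _) (sq_nonneg _)
  calc _ ≤ (C * n) * (C * ∑ m ∈ range n, ∑ v, fwd T w u m v * (jmp T G m v) ^ 2) :=
        mul_le_mul h4 h5 h6 (mul_nonneg hC (Nat.cast_nonneg n))
    _ = _ := by ring

/-- Start from a window (or any law on whose support `G 0` is constant) to a law `β` at level
`n`. -/
theorem node_to {G : ℕ → V → ℝ} {n : ℕ} (hG : Con w G n) (P : ℕ → V → Prop)
    [∀ m v, Decidable (P m v)] (hP : ∀ m, m < n → ∀ v, ¬ P m v → jmp T G m v = 0)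
    (u β : V → ℝ) (hu : ∀ v, 0 ≤ u v)
    (hβ : ∀ v, 0 ≤ β v) (hβ1 : ∑ v, β v = 1) (g bmax kmin : ℝ) (hk : 0 < kmin) (hb : 0 ≤ bmax)
    (hβb : ∀ v, β v ≤ bmax) (hK : ∀ v, β v ≠ 0 → kmin ≤ fwd T w u n v)
    (hg : ∀ v, u v ≠ 0 → G 0 v = g) :
    (g - ∑ v, β v * G n v) ^ 2 ≤ (bmax / kmin) ^ 2 * sqS T w P u n * EJ T G n := by
  set φ : V → ℝ := fun v => β v / fwd T w u n v with hφ
  have hfn := fwd_nonneg T w hu n
  have hφ0 : ∀ v, 0 ≤ φ v := fun v => div_nonneg (hβ v) (hfn v)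
  have hφ1 : ∀ v, φ v ≤ bmax / kmin := by
    intro v
    by_cases h : β v = 0
    · rw [hφ]; simp only [h, zero_div]; positivity
    · exact div_le_div₀ hb (hβb v) hk (hK v h)
  have e1 : ∀ v, fwd T w u n v * φ v = β v := by
    intro v
    by_cases h : β v = 0
    · rw [hφ]; simp [h]
    · rw [hφ]; simp only
      have : fwd T w u n v ≠ 0 := (lt_of_lt_of_le hk (hK v h)).ne'
      field_simp
  have ht := tel T w G n hG u φ
  have e2 : ∑ v, fwd T w u n v * φ v * G n v = ∑ v, β v * G n v :=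
    Finset.sum_congr rfl fun v _ => by rw [e1]
  have e3 : ∑ v, u v * hbk T w n φ n v * G 0 v = g := by
    have h1 : ∑ v, u v * hbk T w n φ n v * G 0 v = (∑ v, u v * hbk T w n φ n v) * g := by
      rw [Finset.sum_mul]
      refine Finset.sum_congr rfl fun v _ => ?_
      by_cases h : u v = 0
      · simp [h]
      · rw [hg v h]
    have h2 := tel T w (fun _ _ => (1:ℝ)) n (fun _ _ _ _ _ _ => rfl) u φ
    have h3 : ∑ m ∈ range n, ∑ v, fwd T w u m v * hbk T w n φ (n - m) v *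
        jmp T (fun _ _ => (1:ℝ)) m v = 0 := by
      refine Finset.sum_eq_zero fun m _ => Finset.sum_eq_zero fun v _ => ?_
      simp [jmp]
    rw [h3] at h2
    simp only [mul_one] at h2
    have h4 : ∑ v, fwd T w u n v * φ v = 1 := by
      rw [← hβ1]; exact Finset.sum_congr rfl fun v _ => e1 v
    rw [h1, sub_eq_zero.1 h2, h4, one_mul]
  rw [e2, e3] at ht
  rw [ht]
  refine cs1 T w P hP u (bmax / kmin) (fun m v => fwd T w u m v * hbk T w n φ (n - m) v) ?_ ?_
  · intro m v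
    exact mul_nonneg (fwd_nonneg T w hu m v) (hbk_nonneg T w n hφ0 _ v)
  · intro m _ v
    rw [mul_comm]
    refine mul_le_mul_of_nonneg_right ?_ (fwd_nonneg T w hu m v)
    have := hbk_mono T w n hφ1 (n - m) v
    rwa [hbk_const] at this

/-- Unit mass at `a`. -/
def dl (a : V) : V → ℝ := fun x => if x = a then 1 else 0

lemma dl_nonneg (a v : V) : 0 ≤ dl a v := by unfold dl; split_ifs <;> norm_num

/-- From a law `α` at level `0` to a law `β` at level `n`. -/
theorem law_to {G : ℕ → V → ℝ} {n : ℕ} (hG : Con w G n) (α β : V → ℝ) (hα : ∀ v, 0 ≤ α v)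
    (hα1 : ∑ v, α v = 1)
    (hβ : ∀ v, 0 ≤ β v) (hβ1 : ∑ v, β v = 1) (bmax kmin : ℝ) (hk : 0 < kmin) (hb : 0 ≤ bmax)
    (hβb : ∀ v, β v ≤ bmax)
    (hK : ∀ v v', α v ≠ 0 → β v' ≠ 0 → kmin ≤ fwd T w (dl v) n v') :
    (∑ v, α v * G 0 v - ∑ v, β v * G n v) ^ 2 ≤
      (bmax / kmin) ^ 2 * n * ∑ m ∈ range n, ∑ v, fwd T w α m v * (jmp T G m v) ^ 2 := by
  set C : ℝ := bmax / kmin with hC
  have hC0 : 0 ≤ C := by rw [hC]; positivity
  set lam : V → V → ℝ := fun v v' => α v * (β v' / fwd T w (dl v) n v') with hlam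
  have hlam0 : ∀ v v', 0 ≤ lam v v' := fun v v' =>
    mul_nonneg (hα v) (div_nonneg (hβ v') (fwd_nonneg T w (dl_nonneg v) n v'))
  have hlam1 : ∀ v v', lam v v' ≤ C * α v := by
    intro v v'
    rw [mul_comm]
    by_cases h : α v = 0
    · simp [hlam, h]
    refine mul_le_mul_of_nonneg_left ?_ (hα v)
    by_cases h' : β v' = 0
    · rw [h', zero_div]; exact hC0
    · exact div_le_div₀ hb (hβb v') hk (hK v v' h h')
  have hlam2 : ∀ v v', lam v v' * fwd T w (dl v) n v' = α v * β v' := by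
    intro v v'
    by_cases h : α v = 0
    · simp [hlam, h]
    by_cases h' : β v' = 0
    · simp [hlam, h']
    have : fwd T w (dl v) n v' ≠ 0 := (lt_of_lt_of_le hk (hK v v' h h')).ne'
    rw [hlam]; simp only
    field_simp
  -- identity for one pair
  have pair : ∀ v v', fwd T w (dl v) n v' * (G 0 v - G n v') =
      ∑ m ∈ range n, ∑ x, fwd T w (dl v) m x * hbk T w n (dl v') (n - m) x * jmp T G m x := by
    intro v v'
    have h1 := tel T w G n hG (dl v) (dl v')
    have h2 := tel T w (fun _ _ => (1:ℝ)) n (fun _ _ _ _ _ _ => rfl) (dl v) (dl v')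
    have h3 : ∑ m ∈ range n, ∑ x, fwd T w (dl v) m x * hbk T w n (dl v') (n - m) x *
        jmp T (fun _ _ => (1:ℝ)) m x = 0 := by
      refine Finset.sum_eq_zero fun m _ => Finset.sum_eq_zero fun v _ => ?_
      simp [jmp]
    rw [h3] at h2
    simp only [mul_one] at h2
    have e1 : ∑ x, dl v x * hbk T w n (dl v') n x = hbk T w n (dl v') n v := by
      simp [dl]
    have e2 : ∑ x, fwd T w (dl v) n x * dl v' x = fwd T w (dl v) n v' := by
      simp [dl]
    have e3 : ∑ x, dl v x * hbk T w n (dl v') n x * G 0 x = hbk T w n (dl v') n v * G 0 v := by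
      simp [dl]
    have e4 : ∑ x, fwd T w (dl v) n x * dl v' x * G n x = fwd T w (dl v) n v' * G n v' := by
      simp [dl]
    rw [e1, e2] at h2
    rw [e3, e4] at h1
    rw [← h1, sub_eq_zero.1 h2]
    ring
  set μ : ℕ → V → ℝ := fun m x =>
    ∑ v, ∑ v', lam v v' * (fwd T w (dl v) m x * hbk T w n (dl v') (n - m) x) with hμ
  have id : ∑ v, α v * G 0 v - ∑ v, β v * G n v =
      ∑ m ∈ range n, ∑ x, μ m x * jmp T G m x := by
    have l1 : ∑ v, α v * G 0 v - ∑ v, β v * G n v =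
        ∑ v, ∑ v', lam v v' * (fwd T w (dl v) n v' * (G 0 v - G n v')) := by
      have s1 : ∑ v, α v * G 0 v = ∑ v, ∑ v', α v * β v' * G 0 v := by
        refine Finset.sum_congr rfl fun v _ => ?_
        rw [← Finset.sum_mul, ← Finset.mul_sum, hβ1, mul_one]
      have s2 : ∑ v', β v' * G n v' = ∑ v, ∑ v', α v * β v' * G n v' := by
        rw [Finset.sum_comm]
        refine Finset.sum_congr rfl fun v' _ => ?_
        rw [← Finset.sum_mul, ← Finset.sum_mul, hα1, one_mul]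
      rw [s1, s2, ← Finset.sum_sub_distrib]
      refine Finset.sum_congr rfl fun v _ => ?_
      rw [← Finset.sum_sub_distrib]
      refine Finset.sum_congr rfl fun v' _ => ?_
      rw [← mul_assoc, hlam2]; ring
    rw [l1]
    have l2 : ∀ v v', lam v v' * (fwd T w (dl v) n v' * (G 0 v - G n v')) =
        ∑ p ∈ range n ×ˢ (univ : Finset V), lam v v' *
          (fwd T w (dl v) p.1 p.2 * hbk T w n (dl v') (n - p.1) p.2) * jmp T G p.1 p.2 := by
      intro v v'
      rw [pair, Finset.sum_product, Finset.mul_sum]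
      refine Finset.sum_congr rfl fun m _ => ?_
      rw [Finset.mul_sum]
      refine Finset.sum_congr rfl fun x _ => ?_
      ring
    simp_rw [l2]
    have l3 : ∑ m ∈ range n, ∑ x, μ m x * jmp T G m x =
        ∑ p ∈ range n ×ˢ (univ : Finset V), μ p.1 p.2 * jmp T G p.1 p.2 := by
      rw [Finset.sum_product]
    rw [l3]
    have l4 : ∀ v, ∑ v', ∑ p ∈ range n ×ˢ (univ : Finset V), lam v v' *
          (fwd T w (dl v) p.1 p.2 * hbk T w n (dl v') (n - p.1) p.2) * jmp T G p.1 p.2 =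
        ∑ p ∈ range n ×ˢ (univ : Finset V), ∑ v', lam v v' *
          (fwd T w (dl v) p.1 p.2 * hbk T w n (dl v') (n - p.1) p.2) * jmp T G p.1 p.2 :=
      fun v => Finset.sum_comm
    simp_rw [l4]
    rw [Finset.sum_comm]
    refine Finset.sum_congr rfl fun p _ => ?_
    rw [hμ]; simp only
    rw [Finset.sum_mul]
    refine Finset.sum_congr rfl fun v _ => ?_
    rw [Finset.sum_mul]
  rw [id]
  have hexp : (fun x => ∑ v ∈ (univ : Finset V), α v * dl v x) = α := by
    funext x; simp [dl]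
  refine cs2 T w α hα hα1 C hC0 μ ?_ ?_
  · intro m x
    refine Finset.sum_nonneg fun v _ => Finset.sum_nonneg fun v' _ => ?_
    exact mul_nonneg (hlam0 v v') (mul_nonneg (fwd_nonneg T w (dl_nonneg v) m x)
      (hbk_nonneg T w n (dl_nonneg v') _ x))
  · intro m _ x
    have b1 : ∀ v, ∑ v', lam v v' * (fwd T w (dl v) m x * hbk T w n (dl v') (n - m) x) ≤
        C * (α v * fwd T w (dl v) m x) := by
      intro v
      have b2 : ∑ v', lam v v' * (fwd T w (dl v) m x * hbk T w n (dl v') (n - m) x) ≤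
          ∑ v', C * α v * fwd T w (dl v) m x * (1 * hbk T w n (dl v') (n - m) x) := by
        refine Finset.sum_le_sum fun v' _ => ?_
        have h0 := hbk_nonneg T w n (dl_nonneg v') (n - m) x
        have h1 := fwd_nonneg T w (dl_nonneg v) m x
        have h2 := hlam1 v v'
        have h3 := mul_le_mul_of_nonneg_right h2 (mul_nonneg h1 h0)
        calc _ ≤ C * α v * (fwd T w (dl v) m x * hbk T w n (dl v') (n - m) x) := h3
          _ = _ := by ring
      refine b2.trans (le_of_eq ?_)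
      rw [← Finset.mul_sum]
      have h4 := hbk_lin T w n (univ : Finset V) (fun _ => (1:ℝ)) (fun v' => dl v') (n - m) x
      have h5 : (fun x => ∑ v' ∈ (univ : Finset V), (1:ℝ) * dl v' x) = fun _ => (1:ℝ) := by
        funext x; simp [dl]
      rw [h5, hbk_const] at h4
      rw [← h4]; ring
    have b3 := fwd_lin T w (univ : Finset V) α (fun v => dl v) m x
    rw [hexp] at b3
    rw [b3, Finset.mul_sum]
    exact Finset.sum_le_sum fun v _ => b1 v

end Pool.Agent.Stirring.RS
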